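import Pool.Agent.H65.CRZ.TD
import Pool.Agent.H37.CV.All

/-!
# Board crz_modules, row H2: the `L`-functions to the right of `1`
-/

set_option autoImplicit false

namespace Pool.Agent.H60.CRZ

open NumberField NumberField.InfinitePlace Complex Filter Topology MeasureTheory
open Pool.Agent.H28.RC Pool.Agent.H25.HK Pool.Agent.H37.CV Pool.Agent.H65.CRZ

section
variable {K : Type} [Field K] [NumberField K]

theorem one_le_nm {I : Ideal (𝓞 K)} (h : I ≠ ⊥) : 1 ≤ nm I := by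
  have h1 : Ideal.absNorm I ≠ 0 := fun h2 => h (Ideal.absNorm_eq_zero_iff.1 h2)
  have h2 : 1 ≤ Ideal.absNorm I := Nat.one_le_iff_ne_zero.2 h1
  unfold nm
  exact_mod_cast h2

theorem two_le_nm {I : Ideal (𝓞 K)} (h : I ≠ ⊥) (h' : I ≠ ⊤) : 2 ≤ nm I := by
  have h1 : Ideal.absNorm I ≠ 0 := fun h2 => h (Ideal.absNorm_eq_zero_iff.1 h2)
  have h3 : Ideal.absNorm I ≠ 1 := fun h2 => h' (Ideal.absNorm_eq_one_iff.1 h2)
  have h2 : 2 ≤ Ideal.absNorm I := by omega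
  unfold nm
  exact_mod_cast h2

theorem summ_nm (K : Type) [Field K] [NumberField K] {σ : ℝ} (hσ : 1 < σ) :
    Summable (fun I : NI K => nm I.1 ^ (-σ)) := by
  obtain ⟨E, _, h, _, _⟩ := a_ZK K
  have h1 := (h (σ : ℂ) (by simpa using hσ)).1
  refine h1.congr fun I => ?_
  have h2 : 0 < nm I.1 := lt_of_lt_of_le one_pos (one_le_nm I.2)
  rw [Complex.norm_cpow_eq_rpow_re_of_pos h2]
  simp

theorem norm_psi_le (χ : RCC K) (I : Ideal (𝓞 K)) : ‖χ.ψ I‖ ≤ 1 := by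
  by_cases h0 : I = ⊥
  · rw [h0, χ.map_bot, norm_zero]
    exact zero_le_one
  by_cases h1 : I ⊔ χ.f = ⊤
  · exact (χ.norm_one I h0 h1).le
  · rw [χ.eq_zero I h1, norm_zero]
    exact zero_le_one

theorem rpow_decay {x σ : ℝ} (hx : 2 ≤ x) (hσ : 3 / 2 ≤ σ) :
    x ^ (-σ) ≤ 4 * (2 : ℝ) ^ (-σ) * x ^ (-(3 / 2) : ℝ) := by
  have hx0 : 0 < x := by linarith
  have h1 : x ^ (-σ) = x ^ (3 / 2 - σ) * x ^ (-(3 / 2) : ℝ) := by
    rw [← Real.rpow_add hx0]
    congr 1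
    ring
  rw [h1]
  refine mul_le_mul_of_nonneg_right ?_ (Real.rpow_nonneg hx0.le _)
  have h2 : x ^ (3 / 2 - σ) ≤ (2 : ℝ) ^ (3 / 2 - σ) :=
    Real.rpow_le_rpow_of_nonpos two_pos hx (by linarith)
  refine h2.trans ?_
  have h3 : (2 : ℝ) ^ (3 / 2 - σ) = (2 : ℝ) ^ (3 / 2 : ℝ) * (2 : ℝ) ^ (-σ) := by
    rw [← Real.rpow_add two_pos]
    congr 1
  rw [h3]
  refine mul_le_mul_of_nonneg_right ?_ (Real.rpow_nonneg two_pos.le _)
  calc (2 : ℝ) ^ (3 / 2 : ℝ) ≤ (2 : ℝ) ^ (2 : ℝ) :=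
        Real.rpow_le_rpow_of_exponent_le one_le_two (by norm_num)
    _ = 4 := by
        rw [Real.rpow_two]
        norm_num

theorem norm_cpow_nm {x : ℝ} (hx : 0 < x) (s : ℂ) : ‖((x : ℝ) : ℂ) ^ (-s)‖ = x ^ (-s.re) := by
  rw [Complex.norm_cpow_eq_rpow_re_of_pos hx, Complex.neg_re]

end

theorem pf_H2 : T_H2 := by
  classical
  intro K _ _
  have hsum := summ_nm K (σ := 3 / 2) (by norm_num)
  set W : ℝ := ∑' I : NI K, nm I.1 ^ (-(3 / 2) : ℝ) with hW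
  have hnn : ∀ I : NI K, 0 ≤ nm I.1 ^ (-(3 / 2) : ℝ) := fun I =>
    Real.rpow_nonneg (Nat.cast_nonneg _) _
  have hW0 : 0 ≤ W := tsum_nonneg hnn
  refine ⟨1 + 4 * W, by linarith, ?_, ?_⟩
  · intro χ s hs
    set f : NI K → ℂ := fun I => χ.ψ I.1 * (Ideal.absNorm I.1 : ℂ) ^ (-s) with hf
    have hfn : ∀ I : NI K, ‖f I‖ ≤ nm I.1 ^ (-s.re) := by
      intro I
      have h1 : 0 < nm I.1 := lt_of_lt_of_le one_pos (one_le_nm I.2)
      have h2 : ‖(Ideal.absNorm I.1 : ℂ) ^ (-s)‖ = nm I.1 ^ (-s.re) := by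
        rw [← norm_cpow_nm h1]
        unfold nm
        rw [Complex.ofReal_natCast]
      rw [hf]
      show ‖χ.ψ I.1 * (Ideal.absNorm I.1 : ℂ) ^ (-s)‖ ≤ _
      rw [norm_mul, h2]
      calc ‖χ.ψ I.1‖ * nm I.1 ^ (-s.re) ≤ 1 * nm I.1 ^ (-s.re) :=
            mul_le_mul_of_nonneg_right (norm_psi_le χ _) (Real.rpow_nonneg h1.le _)
        _ = _ := one_mul _
    have hf1 : ∀ I : NI K, ‖f I‖ ≤ nm I.1 ^ (-(3 / 2) : ℝ) := fun I =>
      (hfn I).trans (Real.rpow_le_rpow_of_exponent_le (one_le_nm I.2) (by linarith))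
    have hfs : Summable fun I => ‖f I‖ := hsum.of_nonneg_of_le (fun _ => norm_nonneg _) hf1
    have htop : (⊤ : Ideal (𝓞 K)) ≠ ⊥ := top_ne_bot
    have hf2 : f ⟨⊤, htop⟩ = 1 := by
      rw [hf]
      show χ.ψ ⊤ * (Ideal.absNorm (⊤ : Ideal (𝓞 K)) : ℂ) ^ (-s) = 1
      rw [χ.map_one, Ideal.absNorm_top, Nat.cast_one, Complex.one_cpow, one_mul]
    have hL : Lc χ s = ∑' I, f I := rfl
    constructor
    · rw [hL]
      calc ‖∑' I, f I‖ ≤ ∑' I, ‖f I‖ := norm_tsum_le_tsum_norm hfs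
        _ ≤ W := hfs.tsum_le_tsum hf1 hsum
        _ ≤ _ := by linarith
    · rw [hL, Summable.tsum_eq_add_tsum_ite (Summable.of_norm hfs) ⟨⊤, htop⟩, hf2, add_sub_cancel_left]
      have h3 : ∀ I : NI K, ‖(if I = ⟨⊤, htop⟩ then (0 : ℂ) else f I)‖ ≤
          4 * (2 : ℝ) ^ (-s.re) * nm I.1 ^ (-(3 / 2) : ℝ) := by
        intro I
        by_cases hI : I = ⟨⊤, htop⟩
        · rw [if_pos hI, norm_zero]
          have := hnn I
          positivity
        · rw [if_neg hI]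
          exact (hfn I).trans (rpow_decay (two_le_nm I.2 fun h => hI (Subtype.ext h)) hs)
      have h4 := hsum.mul_left (4 * (2 : ℝ) ^ (-s.re))
      have h5 : Summable fun I : NI K => ‖(if I = ⟨⊤, htop⟩ then (0 : ℂ) else f I)‖ :=
        h4.of_nonneg_of_le (fun _ => norm_nonneg _) h3
      calc ‖∑' I : NI K, (if I = ⟨⊤, htop⟩ then (0 : ℂ) else f I)‖
          ≤ ∑' I : NI K, ‖(if I = ⟨⊤, htop⟩ then (0 : ℂ) else f I)‖ :=
            norm_tsum_le_tsum_norm h5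
        _ ≤ ∑' I : NI K, 4 * (2 : ℝ) ^ (-s.re) * nm I.1 ^ (-(3 / 2) : ℝ) :=
            h5.tsum_le_tsum h3 h4
        _ = 4 * (2 : ℝ) ^ (-s.re) * W := tsum_mul_left
        _ ≤ _ := by
            have : (0 : ℝ) < 2 ^ (-s.re) := Real.rpow_pos_of_pos two_pos _
            nlinarith
  · intro M χ c s hs hc hc0 hM
    have hemp : (∅ : Finset (PrI K)) ∈ DM K M := by
      unfold DM DS
      rw [Finset.mem_filter, Finset.mem_powerset]
      refine ⟨Finset.empty_subset _, ?_⟩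
      unfold nS
      rw [Finset.prod_empty]
      exact hM
    rw [← Finset.add_sum_erase _ _ hemp]
    have h0 : c ∅ * χ.ψ (idS ∅) * ((nS np (∅ : Finset (PrI K)) : ℝ) : ℂ) ^ (-s) = 1 := by
      have h1 : idS (∅ : Finset (PrI K)) = ⊤ := by
        unfold idS
        rw [Finset.prod_empty]
        exact Ideal.one_eq_top
      have h2 : nS np (∅ : Finset (PrI K)) = 1 := by
        unfold nS
        rw [Finset.prod_empty]
      rw [hc0, h1, χ.map_one, h2, Complex.ofReal_one, Complex.one_cpow, one_mul, one_mul]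
    rw [h0, add_sub_cancel_left]
    have hne : ∀ S : Finset (PrI K), S ≠ ∅ → idS S ≠ ⊤ := by
      intro S hS h
      obtain ⟨P, hP⟩ := Finset.nonempty_iff_ne_empty.2 hS
      have h1 : P.1 ∣ idS S := by
        unfold idS
        exact Finset.dvd_prod_of_mem (fun P : PrI K => P.1) hP
      rw [h] at h1
      have h2 := Ideal.dvd_iff_le.1 h1
      exact P.2.1.ne_top (top_le_iff.1 h2)
    have h6 : ∀ S ∈ (DM K M).erase ∅, ‖c S * χ.ψ (idS S) * ((nS np S : ℝ) : ℂ) ^ (-s)‖ ≤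
        4 * (2 : ℝ) ^ (-s.re) * nm (idS S) ^ (-(3 / 2) : ℝ) := by
      intro S hS
      have hS0 : S ≠ ∅ := (Finset.mem_erase.1 hS).1
      have h1 : 2 ≤ nm (idS S) := two_le_nm (Pool.Agent.H3.CV.idS_ne S) (hne S hS0)
      rw [← Pool.Agent.H3.CV.nm_idS, norm_mul, norm_mul, norm_cpow_nm (by linarith)]
      have h2 : ‖c S‖ * ‖χ.ψ (idS S)‖ ≤ 1 :=
        mul_le_one₀ (hc S) (norm_nonneg _) (norm_psi_le χ _)
      calc ‖c S‖ * ‖χ.ψ (idS S)‖ * nm (idS S) ^ (-s.re) ≤ 1 * nm (idS S) ^ (-s.re) :=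
            mul_le_mul_of_nonneg_right h2 (Real.rpow_nonneg (by linarith) _)
        _ = nm (idS S) ^ (-s.re) := one_mul _
        _ ≤ _ := rpow_decay h1 hs
    refine (norm_sum_le _ _).trans ((Finset.sum_le_sum h6).trans ?_)
    rw [← Finset.mul_sum]
    have h7 : ∑ S ∈ (DM K M).erase ∅, nm (idS S) ^ (-(3 / 2) : ℝ) ≤ W := by
      let g : Finset (PrI K) → NI K := fun S => ⟨idS S, Pool.Agent.H3.CV.idS_ne S⟩
      have hg : Function.Injective g := fun S T h =>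
        Pool.Agent.H86.CV.gu_idS_inj (congrArg Subtype.val h)
      calc ∑ S ∈ (DM K M).erase ∅, nm (idS S) ^ (-(3 / 2) : ℝ)
          = ∑ I ∈ ((DM K M).erase ∅).image g, nm I.1 ^ (-(3 / 2) : ℝ) := by
            rw [Finset.sum_image (fun a _ b _ h => hg h)]
        _ ≤ W := hsum.sum_le_tsum _ fun I _ => hnn I
    have h8 : (0 : ℝ) < 2 ^ (-s.re) := Real.rpow_pos_of_pos two_pos _
    nlinarith

end Pool.Agent.H60.CRZ
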