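import Pool.Agent.H65.CRZ.TN
import Pool.Agent.H27.CV.Comb

/-!
# Board crz_modules, row S2: the diagonal form
-/

set_option autoImplicit false

namespace Pool.Agent.H60.CRZ

open NumberField NumberField.InfinitePlace Complex Filter Topology MeasureTheory
open Pool.Agent.H28.RC Pool.Agent.H25.HK Pool.Agent.H37.CV Pool.Agent.H65.CRZ

theorem cpow_nS {α : Type} {N : α → ℝ} (hN : ∀ P, 0 < N P) (S : Finset α) (s : ℂ) :
    ((nS N S : ℝ) : ℂ) ^ s = ∏ P ∈ S, ((N P : ℝ) : ℂ) ^ s := by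
  classical
  induction S using Finset.induction_on with
  | empty => simp [nS]
  | insert P S hP ih =>
    have h1 : nS N (insert P S) = N P * nS N S := Finset.prod_insert hP
    have h2 : 0 ≤ nS N S := Finset.prod_nonneg fun Q _ => (hN Q).le
    rw [Finset.prod_insert hP, ← ih, h1, Complex.ofReal_mul,
      Complex.mul_cpow_ofReal_nonneg (hN P).le h2]

theorem pf_S2 (h1 : T_S1) : T_S2 := by
  classical
  intro α N A M a b hN hM
  have hpos : ∀ P, 0 < N P := fun P => lt_of_lt_of_le two_pos (hN P)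
  have hnS : ∀ S, 0 < nS N S := fun S => Pool.Agent.H27.CV.nS_pos hN S
  -- the kernel
  let k : Finset α → ℂ := fun D => ∏ P ∈ D, (((N P : ℝ) : ℂ) ^ (1 + a + b) - 1)
  have hk : ∀ S T : Finset α, ((nS N (S ∩ T) : ℝ) : ℂ) ^ (1 + a + b) =
      ∑ D ∈ (S ∩ T).powerset, k D := by
    intro S T
    rw [cpow_nS hpos, ← Finset.prod_one_add]
    exact Finset.prod_congr rfl fun P _ => by ring
  have hk2 : ∀ S ∈ DS N A M, ∀ T, ((nS N (S ∩ T) : ℝ) : ℂ) ^ (1 + a + b) =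
      ∑ D ∈ DS N A M, if D ⊆ S ∧ D ⊆ T then k D else 0 := by
    intro S hS T
    rw [hk, ← Finset.sum_filter]
    refine Finset.sum_congr ?_ fun _ _ => rfl
    ext D
    rw [Finset.mem_powerset, Finset.mem_filter, Finset.subset_inter_iff]
    exact ⟨fun h => ⟨Pool.Agent.H27.CV.DS_down hN hS h.1, h⟩, fun h => h.2⟩
  have e1 : ∑ S ∈ DS N A M, ∑ T ∈ DS N A M, ((xS N A M S * xS N A M T : ℝ) : ℂ) *
      (((nS N S : ℝ) : ℂ) ^ (-(1 + b)) * ((nS N T : ℝ) : ℂ) ^ (-(1 + a)) *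
        ((nS N (S ∩ T) : ℝ) : ℂ) ^ (1 + a + b)) =
      ∑ D ∈ DS N A M, ∑ S ∈ DS N A M, ∑ T ∈ DS N A M, k D *
        ((if D ⊆ S then (xS N A M S : ℂ) * ((nS N S : ℝ) : ℂ) ^ (-(1 + b)) else 0) *
          (if D ⊆ T then (xS N A M T : ℂ) * ((nS N T : ℝ) : ℂ) ^ (-(1 + a)) else 0)) := by
    refine Eq.trans ?_ Finset.sum_comm
    refine Finset.sum_congr rfl fun S hS => ?_
    refine Eq.trans ?_ Finset.sum_comm
    refine Finset.sum_congr rfl fun T _ => ?_
    rw [hk2 S hS T, Finset.mul_sum, Finset.mul_sum]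
    refine Finset.sum_congr rfl fun D _ => ?_
    push_cast
    by_cases hDS : D ⊆ S
    · by_cases hDT : D ⊆ T
      · rw [if_pos ⟨hDS, hDT⟩, if_pos hDS, if_pos hDT]
        ring
      · rw [if_neg (fun h => hDT h.2), if_neg hDT]
        ring
    · rw [if_neg (fun h => hDS h.1), if_neg hDS]
      ring
  rw [e1, Finset.mul_sum]
  refine Finset.sum_congr rfl fun D hD => ?_
  have e2 : ∑ S ∈ DS N A M, ∑ T ∈ DS N A M, k D *
        ((if D ⊆ S then (xS N A M S : ℂ) * ((nS N S : ℝ) : ℂ) ^ (-(1 + b)) else 0) *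
          (if D ⊆ T then (xS N A M T : ℂ) * ((nS N T : ℝ) : ℂ) ^ (-(1 + a)) else 0)) =
      k D * ((∑ S ∈ (DS N A M).filter (fun S => D ⊆ S), (xS N A M S : ℂ) *
          ((nS N S : ℝ) : ℂ) ^ (-(1 + b))) *
        ∑ T ∈ (DS N A M).filter (fun T => D ⊆ T), (xS N A M T : ℂ) *
          ((nS N T : ℝ) : ℂ) ^ (-(1 + a))) := by
    rw [Finset.sum_filter, Finset.sum_filter, Finset.sum_mul_sum, Finset.mul_sum]
    refine Finset.sum_congr rfl fun S _ => ?_
    rw [Finset.mul_sum]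
  rw [e2, h1 α N A D M b hN hM hD, h1 α N A D M a hN hM hD]
  -- the product
  have hf : ((fS N D : ℝ) : ℂ) = ∏ P ∈ D, ((N P - 1 : ℝ) : ℂ) := by
    unfold fS
    rw [Complex.ofReal_prod]
  have hf0 : ((fS N D : ℝ) : ℂ) ≠ 0 :=
    Complex.ofReal_ne_zero.2 (Pool.Agent.H27.CV.fS_pos hN D).ne'
  have e3 : k D * (((nS N D : ℝ) : ℂ) ^ (-a) * ((nS N D : ℝ) : ℂ) ^ (-b)) =
      hw N (a + b) D * ((fS N D : ℝ) : ℂ) := by
    rw [cpow_nS hpos, cpow_nS hpos, hf]
    unfold hw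
    rw [← Finset.prod_mul_distrib, ← Finset.prod_mul_distrib, ← Finset.prod_mul_distrib]
    refine Finset.prod_congr rfl fun P _ => ?_
    have hP0 : ((N P : ℝ) : ℂ) ≠ 0 := Complex.ofReal_ne_zero.2 (hpos P).ne'
    have hP1 : ((N P - 1 : ℝ) : ℂ) ≠ 0 := Complex.ofReal_ne_zero.2 (by linarith [hN P])
    rw [div_mul_cancel₀ _ hP1, ← Complex.cpow_add _ _ hP0, sub_mul, one_mul,
      ← Complex.cpow_add _ _ hP0]
    have h5 : (1 + a + b + (-a + -b) : ℂ) = 1 := by ring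
    have h6 : (-a + -b : ℂ) = -(a + b) := by ring
    rw [h5, h6, Complex.cpow_one]
  have hcard : ((-1 : ℂ) ^ D.card) * (-1) ^ D.card = 1 := by
    rw [← mul_pow]
    norm_num
  by_cases hG : GS N A M = 0
  · rw [hG]
    simp
  have hG0 : ((GS N A M : ℝ) : ℂ) ≠ 0 := Complex.ofReal_ne_zero.2 hG
  push_cast
  generalize ((nS N D : ℝ) : ℂ) ^ (-a) = u at *
  generalize ((nS N D : ℝ) : ℂ) ^ (-b) = v at *
  generalize Eb N A D (M / nS N D) a = ea at *
  generalize Eb N A D (M / nS N D) b = eb at *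
  generalize ((-1 : ℂ) ^ D.card) = c at *
  generalize ((fS N D : ℝ) : ℂ) = f at *
  generalize ((GS N A M : ℝ) : ℂ) = g at *
  generalize hw N (a + b) D = h at *
  have e4 : k D * (c * v / (f * g) * eb * (c * u / (f * g) * ea)) =
      (k D * (u * v)) * (c * c) * (ea * eb) / (f * g) ^ 2 := by
    field_simp
  rw [e4, e3, hcard]
  field_simp

end Pool.Agent.H60.CRZ
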