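import Pool.Agent.H65.CRZ.TN
import Pool.Agent.H59.CV.SQ
import Pool.Agent.H37.CV.All

/-!
# Board crz_modules, row SC: the sum over the ideals prime to `q`
-/

set_option autoImplicit false

namespace Pool.Agent.H60.CRZ.SCp

open NumberField NumberField.InfinitePlace Complex Filter Topology MeasureTheory
open Pool.Agent.H28.RC Pool.Agent.H25.HK Pool.Agent.H37.CV Pool.Agent.H65.CRZ
open Pool.Agent.H59.CV (one_le_nm nm_mul primes_over exists_prime_over norm_tsum_le')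

section
variable {K : Type} [Field K] [NumberField K]

theorem summ_nm (K : Type) [Field K] [NumberField K] {σ : ℝ} (hσ : 1 < σ) :
    Summable (fun I : NI K => nm I.1 ^ (-σ)) := by
  obtain ⟨E, _, h, _, _⟩ := a_ZK K
  have h1 := (h (σ : ℂ) (by simpa using hσ)).1
  refine h1.congr fun I => ?_
  have h2 : 0 < nm I.1 := lt_of_lt_of_le one_pos (one_le_nm I.2)
  rw [Complex.norm_cpow_eq_rpow_re_of_pos h2]
  simp

/-- finite sums are bounded by the zeta value -/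
theorem fin_le {σ : ℝ} (hσ : 1 < σ) (X : Finset (Ideal (𝓞 K))) (hX : ∀ I ∈ X, I ≠ ⊥) :
    ∑ I ∈ X, nm I ^ (-σ) ≤ ∑' I : NI K, nm I.1 ^ (-σ) := by
  classical
  have h1 := summ_nm K hσ
  have h2 : ∑ I ∈ X, nm I ^ (-σ) = ∑ I ∈ X.subtype (fun I => I ≠ ⊥), nm I.1 ^ (-σ) := by
    rw [Finset.sum_subtype_of_mem (fun I : Ideal (𝓞 K) => nm I ^ (-σ)) hX]
  rw [h2]
  exact h1.sum_le_tsum _ fun I _ => Real.rpow_nonneg (Nat.cast_nonneg _) _

/-- the ideals which are not prime to `q` -/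
theorem bound_q {σ : ℝ} (hσ : 1 < σ) {q : ℕ} (hq : q.Prime)
    (X : Finset (Ideal (𝓞 K))) (hX : ∀ I ∈ X, I ≠ ⊥ ∧ I ⊔ qi K q ≠ ⊤) :
    ∑ I ∈ X, nm I ^ (-σ) ≤
      Module.finrank ℚ K * ((q : ℝ) ^ (-σ) * ∑' I : NI K, nm I.1 ^ (-σ)) := by
  classical
  have hq0 : (0 : ℝ) < q := by exact_mod_cast hq.pos
  have hch : ∀ I : Ideal (𝓞 K), ∃ P : PrI K, I ∈ X → I ≤ P.1 ∧ qi K q ≤ P.1 := by
    intro I
    by_cases hI : I ∈ X
    · obtain ⟨P, hP⟩ := exists_prime_over (hX I hI).1 (hX I hI).2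
      exact ⟨P, fun _ => hP⟩
    · by_cases hX0 : X.Nonempty
      · obtain ⟨J, hJ⟩ := hX0
        obtain ⟨P, _⟩ := exists_prime_over (hX J hJ).1 (hX J hJ).2
        exact ⟨P, fun h => absurd h hI⟩
      · obtain ⟨M, hM⟩ := Ideal.exists_maximal (𝓞 K)
        have hM0 : M ≠ ⊥ := by
          intro h0
          exact RingOfIntegers.not_isField K ((Ring.isField_iff_maximal_bot).2 (h0 ▸ hM))
        exact ⟨⟨M, hM.isPrime, hM0⟩, fun h => absurd h hI⟩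
  choose p hp using hch
  have hps := primes_over hq (X.image p) (by
    intro P hP
    obtain ⟨I, hI, rfl⟩ := Finset.mem_image.1 hP
    exact (hp I hI).2)
  rw [← Finset.sum_fiberwise_of_maps_to (t := X.image p) (g := p)
    (fun I hI => Finset.mem_image_of_mem p hI)]
  set W : ℝ := ∑' I : NI K, nm I.1 ^ (-σ) with hW
  have hW0 : 0 ≤ W := tsum_nonneg fun I => Real.rpow_nonneg (Nat.cast_nonneg _) _
  have hone : ∀ P ∈ X.image p, ∑ I ∈ X.filter (fun I => p I = P),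
      nm I ^ (-σ) ≤ (q : ℝ) ^ (-σ) * W := by
    intro P hP
    have hch2 : ∀ I : Ideal (𝓞 K), ∃ J, I ∈ X.filter (fun I => p I = P) → I = P.1 * J := by
      intro I
      by_cases hI : I ∈ X.filter (fun I => p I = P)
      · rw [Finset.mem_filter] at hI
        have h1 : I ≤ P.1 := hI.2 ▸ (hp I hI.1).1
        obtain ⟨J, hJ⟩ := Ideal.dvd_iff_le.2 h1
        exact ⟨J, fun _ => hJ⟩
      · exact ⟨⊤, fun h => absurd h hI⟩
    choose j hj using hch2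
    have hinj : Set.InjOn j (X.filter (fun I => p I = P)) := by
      intro I hI I' hI' h1
      rw [hj I (Finset.mem_coe.1 hI), hj I' (Finset.mem_coe.1 hI'), h1]
    have hPq : (q : ℝ) ≤ nm P.1 := hps.1 P hP
    calc ∑ I ∈ X.filter (fun I => p I = P), nm I ^ (-σ)
        ≤ ∑ I ∈ X.filter (fun I => p I = P), (q : ℝ) ^ (-σ) * nm (j I) ^ (-σ) := by
          refine Finset.sum_le_sum fun I hI => ?_
          have h1 := hj I hI
          have h2 : nm I = nm P.1 * nm (j I) := by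
            conv_lhs => rw [h1]
            exact nm_mul _ _
          have h4 : 0 < nm P.1 := lt_of_lt_of_le hq0 hPq
          have h5 : (0 : ℝ) ≤ nm (j I) := Nat.cast_nonneg _
          rw [h2, Real.mul_rpow h4.le h5]
          exact mul_le_mul_of_nonneg_right
            (Real.rpow_le_rpow_of_nonpos hq0 hPq (by linarith))
            (Real.rpow_nonneg (Nat.cast_nonneg _) _)
      _ = (q : ℝ) ^ (-σ) * ∑ J ∈ (X.filter (fun I => p I = P)).image j, nm J ^ (-σ) := by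
          rw [← Finset.mul_sum, Finset.sum_image hinj]
      _ ≤ (q : ℝ) ^ (-σ) * W := by
          refine mul_le_mul_of_nonneg_left (fin_le hσ _ ?_) (Real.rpow_nonneg hq0.le _)
          intro J hJ
          obtain ⟨I, hI, rfl⟩ := Finset.mem_image.1 hJ
          intro h2
          have h1 := hj I hI
          rw [h2, Ideal.mul_bot] at h1
          exact (hX I (Finset.mem_filter.1 hI).1).1 h1
  refine (Finset.sum_le_sum hone).trans ?_
  rw [Finset.sum_const, nsmul_eq_mul]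
  have h1 : ((X.image p).card : ℝ) ≤ Module.finrank ℚ K := by exact_mod_cast hps.2
  exact mul_le_mul_of_nonneg_right h1 (mul_nonneg (Real.rpow_nonneg hq0.le _) hW0)

/-- the terms -/
noncomputable def tm (s₁ s₂ : ℂ) (Y : ℝ) (t : Ideal (𝓞 K)) : ℂ :=
  ((nm t : ℝ) : ℂ) ^ (-(s₁ + s₂)) * Vg s₁ s₂ (nm t ^ 2 / Y)

open scoped Classical in
/-- the terms with a condition -/
noncomputable def tp (p : Ideal (𝓞 K) → Prop) (s₁ s₂ : ℂ) (Y : ℝ) (t : NI K) : ℂ :=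
  if p t.1 then tm s₁ s₂ Y t.1 else 0

theorem tp_pos {p : Ideal (𝓞 K) → Prop} {s₁ s₂ : ℂ} {Y : ℝ} {t : NI K} (h : p t.1) :
    tp p s₁ s₂ Y t = tm s₁ s₂ Y t.1 := if_pos h

theorem tp_neg {p : Ideal (𝓞 K) → Prop} {s₁ s₂ : ℂ} {Y : ℝ} {t : NI K} (h : ¬ p t.1) :
    tp p s₁ s₂ Y t = 0 := if_neg h

theorem Sg_eq (m : Ideal (𝓞 K)) (s₁ s₂ : ℂ) (Y : ℝ) :
    Sg m s₁ s₂ Y = ∑' t : NI K, tp (fun t => t ⊔ m = ⊤) s₁ s₂ Y t := by
  classical
  have h1 : ∀ t : NI K, tp (fun t => t ⊔ m = ⊤) s₁ s₂ Y t =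
      Set.indicator {t : NI K | t.1 ⊔ m = ⊤} (fun t => tm s₁ s₂ Y t.1) t := fun t => by
    by_cases ht : t.1 ⊔ m = ⊤
    · rw [tp_pos ht, Set.indicator_of_mem (show t ∈ {t : NI K | t.1 ⊔ m = ⊤} from ht)]
    · rw [tp_neg ht, Set.indicator_of_notMem (show t ∉ {t : NI K | t.1 ⊔ m = ⊤} from ht)]
  rw [tsum_congr h1, ← tsum_subtype]
  let e : {t : Ideal (𝓞 K) // t ≠ ⊥ ∧ t ⊔ m = ⊤} ≃ {t : NI K | t.1 ⊔ m = ⊤} :=
    { toFun := fun t => ⟨⟨t.1, t.2.1⟩, t.2.2⟩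
      invFun := fun t => ⟨t.1.1, t.1.2, t.2⟩
      left_inv := fun t => rfl
      right_inv := fun t => rfl }
  exact (e.tsum_eq (fun t : {t : NI K | t.1 ⊔ m = ⊤} => tm s₁ s₂ Y t.1.1))

/-- sums over all nonzero ideals -/
theorem tp_key (B : ℝ) (s₁ s₂ : ℂ) (Y : ℝ) (p : Ideal (𝓞 K) → Prop)
    (h : ∀ X : Finset (Ideal (𝓞 K)),
    (∀ I ∈ X, I ≠ ⊥ ∧ p I) → ∑ I ∈ X, ‖tm s₁ s₂ Y I‖ ≤ B) :
    Summable (fun t : NI K => ‖tp p s₁ s₂ Y t‖) ∧ ‖∑' t : NI K, tp p s₁ s₂ Y t‖ ≤ B := by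
  classical
  refine norm_tsum_le' _ B fun u => ?_
  have h2 := h ((u.filter fun t => p t.1).image fun t => t.1) (by
    intro I hI
    obtain ⟨t, ht, rfl⟩ := Finset.mem_image.1 hI
    exact ⟨t.2, (Finset.mem_filter.1 ht).2⟩)
  rw [Finset.sum_image (fun a _ b _ hab => Subtype.ext hab), Finset.sum_filter] at h2
  refine le_trans (le_of_eq ?_) h2
  refine Finset.sum_congr rfl fun t _ => ?_
  by_cases ht : p t.1
  · rw [tp_pos ht, if_pos ht]
  · rw [tp_neg ht, if_neg ht, norm_zero]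

end

end Pool.Agent.H60.CRZ.SCp

namespace Pool.Agent.H60.CRZ

open NumberField NumberField.InfinitePlace Complex Filter Topology MeasureTheory
open Pool.Agent.H28.RC Pool.Agent.H25.HK Pool.Agent.H37.CV Pool.Agent.H65.CRZ
open Pool.Agent.H60.CRZ.SCp

theorem pf_SC (h1 : T_VG) : T_SC := by
  classical
  intro K _ _
  obtain ⟨C, B, hC, hB, hV⟩ := h1 (1 / 4) (by norm_num)
  set W : ℝ := ∑' I : NI K, nm I.1 ^ (-(11 / 8) : ℝ) with hW
  have hW0 : 0 ≤ W := tsum_nonneg fun I => Real.rpow_nonneg (Nat.cast_nonneg _) _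
  refine ⟨C * (Module.finrank ℚ K * W + 1), B, by positivity, hB, ?_⟩
  intro q s₁ s₂ Y hq hs₁ hs₂ hY
  have hq0 : (0 : ℝ) < q := by exact_mod_cast hq.pos
  rw [abs_le] at hs₁ hs₂
  set L : ℝ := (1 + |s₁.im| + |s₂.im|) ^ B with hL
  have hL0 : 0 ≤ L := Real.rpow_nonneg (by positivity) _
  have hY4 : 0 ≤ Y ^ (1 / 4 : ℝ) := Real.rpow_nonneg hY.le _
  set E : ℝ := C * L * Y ^ (1 / 4 : ℝ) with hE
  have hE0 : 0 ≤ E := by positivity
  have hterm : ∀ t : Ideal (𝓞 K), t ≠ ⊥ → ‖tm s₁ s₂ Y t‖ ≤ E * nm t ^ (-(11 / 8) : ℝ) := by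
    intro t ht
    have hn : 1 ≤ nm t := Pool.Agent.H59.CV.one_le_nm ht
    have hn0 : 0 < nm t := by linarith
    have h2 := (hV s₁ s₂ (by linarith) (by linarith) (by linarith) (by linarith)
      (nm t ^ 2 / Y) (by positivity)).2.2
    unfold tm
    rw [norm_mul, Complex.norm_cpow_eq_rpow_re_of_pos hn0, Complex.neg_re, Complex.add_re]
    have h3 : nm t ^ (-(s₁.re + s₂.re)) ≤ nm t ^ (-(7 / 8) : ℝ) :=
      Real.rpow_le_rpow_of_exponent_le hn (by linarith)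
    have h4 : (nm t ^ 2 / Y) ^ (-(1 / 4) : ℝ) = Y ^ (1 / 4 : ℝ) * nm t ^ (-(1 / 2) : ℝ) := by
      rw [Real.div_rpow (by positivity) hY.le, Real.rpow_neg hY.le, div_inv_eq_mul, mul_comm]
      congr 1
      rw [← Real.rpow_natCast, ← Real.rpow_mul hn0.le]
      norm_num
    rw [h4] at h2
    calc nm t ^ (-(s₁.re + s₂.re)) * ‖Vg s₁ s₂ (nm t ^ 2 / Y)‖
        ≤ nm t ^ (-(7 / 8) : ℝ) * (C * L * (Y ^ (1 / 4 : ℝ) * nm t ^ (-(1 / 2) : ℝ))) :=
          mul_le_mul h3 h2 (norm_nonneg _) (Real.rpow_nonneg hn0.le _)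
      _ = E * (nm t ^ (-(7 / 8) : ℝ) * nm t ^ (-(1 / 2) : ℝ)) := by
          rw [hE]
          ring
      _ = _ := by
          rw [← Real.rpow_add hn0]
          norm_num
  have hA := tp_key (K := K) (E * W) s₁ s₂ Y (fun t => t ⊔ ⊤ = ⊤) (by
    intro X hX
    calc ∑ I ∈ X, ‖tm s₁ s₂ Y I‖ ≤ ∑ I ∈ X, E * nm I ^ (-(11 / 8) : ℝ) :=
          Finset.sum_le_sum fun I hI => hterm I (hX I hI).1
      _ = E * ∑ I ∈ X, nm I ^ (-(11 / 8) : ℝ) := by rw [Finset.mul_sum]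
      _ ≤ _ := mul_le_mul_of_nonneg_left (fin_le (by norm_num) X fun I hI => (hX I hI).1) hE0)
  have hBd := tp_key (K := K) (E * (Module.finrank ℚ K * ((q : ℝ) ^ (-(11 / 8) : ℝ) * W))) s₁ s₂ Y
    (fun t => t ⊔ qi K q ≠ ⊤) (by
    intro X hX
    calc ∑ I ∈ X, ‖tm s₁ s₂ Y I‖ ≤ ∑ I ∈ X, E * nm I ^ (-(11 / 8) : ℝ) :=
          Finset.sum_le_sum fun I hI => hterm I (hX I hI).1
      _ = E * ∑ I ∈ X, nm I ^ (-(11 / 8) : ℝ) := by rw [Finset.mul_sum]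
      _ ≤ _ := mul_le_mul_of_nonneg_left (bound_q (by norm_num) hq X hX) hE0)
  have hdiff : Sg (qi K q) s₁ s₂ Y - Sg (K := K) ⊤ s₁ s₂ Y =
      -∑' t : NI K, tp (fun t => t ⊔ qi K q ≠ ⊤) s₁ s₂ Y t := by
    rw [Sg_eq, Sg_eq, ← neg_sub, neg_inj]
    have hsub : Summable (fun t : NI K => tp (fun t => t ⊔ qi K q = ⊤) s₁ s₂ Y t) := by
      refine Summable.of_norm (hA.1.of_nonneg_of_le (fun _ => norm_nonneg _) fun t => ?_)
      rw [tp_pos (p := fun t => t ⊔ ⊤ = ⊤) (sup_top_eq t.1)]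
      by_cases ht : t.1 ⊔ qi K q = ⊤
      · rw [tp_pos ht]
      · rw [tp_neg ht, norm_zero]
        exact norm_nonneg _
    rw [← (Summable.of_norm hA.1).tsum_sub hsub]
    refine tsum_congr fun t => ?_
    rw [tp_pos (p := fun t => t ⊔ ⊤ = ⊤) (sup_top_eq t.1)]
    by_cases ht : t.1 ⊔ qi K q = ⊤
    · rw [tp_pos (p := fun t => t ⊔ qi K q = ⊤) ht,
        tp_neg (p := fun t => t ⊔ qi K q ≠ ⊤) (not_not.2 ht), sub_self]
    · rw [tp_neg (p := fun t => t ⊔ qi K q = ⊤) ht,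
        tp_pos (p := fun t => t ⊔ qi K q ≠ ⊤) ht, sub_zero]
  rw [hdiff, norm_neg]
  refine hBd.2.trans ?_
  have hq8 : 0 ≤ (q : ℝ) ^ (-(11 / 8) : ℝ) := Real.rpow_nonneg hq0.le _
  have h9 : C * (Module.finrank ℚ K * W + 1) * L * Y ^ (1 / 4 : ℝ) * (q : ℝ) ^ (-(11 / 8) : ℝ) =
      E * (Module.finrank ℚ K * ((q : ℝ) ^ (-(11 / 8) : ℝ) * W)) +
        E * (q : ℝ) ^ (-(11 / 8) : ℝ) := by
    rw [hE]
    ring
  rw [h9]
  have := mul_nonneg hE0 hq8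
  linarith

end Pool.Agent.H60.CRZ
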